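import Mathlib

/-!
# The pair inequality: algebra

`f = a + d s - 2 o v + L v^2 + 2 G (1 - s) x^2`, `s = g^2 <= k <= 1`.
* `alg_S`: `o^2 <= a L`, `o^2 <= (a + k d) L`: complete the square.
* `alg_Sp`: `g x <= v <= g x + x^2`: `f >= P - 2 o g x + M x^2`, `P = a + d s`,
  `M = L s + 2 G (1 - s) - 2 o`, and `P M >= o^2 s`: with `s = k m`, `M = (1-m) M0 + m Mk`,
  `P = (1-m) a + m P1`, `P M >= m P1 ((1-m) M0 + m Mk) >= m k o^2`.
-/

namespace Pool.Agent.H93.PR2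

theorem sq_nn {a o L v : ℝ} (hL : 0 < L) (h : o ^ 2 ≤ a * L) :
    0 ≤ a - 2 * o * v + L * v ^ 2 := by
  have h4 : 0 ≤ L * (a - 2 * o * v + L * v ^ 2) := by nlinarith [sq_nonneg (L * v - o)]
  by_contra hneg
  rw [not_le] at hneg
  exact absurd (mul_neg_of_pos_of_neg hL hneg) (not_lt.2 h4)

theorem alg_S {a d o L G s k v x : ℝ} (hL : 0 < L) (hG : 0 ≤ G) (h0 : 0 ≤ s) (hs : s ≤ k)
    (hk : k ≤ 1) (h1 : o ^ 2 ≤ a * L) (h2 : o ^ 2 ≤ (a + k * d) * L) :
    0 ≤ a + d * s - 2 * o * v + L * v ^ 2 + 2 * G * (1 - s) * x ^ 2 := by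
  have h3 : o ^ 2 ≤ (a + d * s) * L := by
    rcases le_total 0 d with hd | hd
    · have := mul_nonneg (mul_nonneg hd h0) hL.le
      linarith
    · have h4 : k * d ≤ s * d := mul_le_mul_of_nonpos_right hs hd
      have h5 := mul_le_mul_of_nonneg_right h4 hL.le
      linarith
  have h5 := sq_nn (v := v) hL h3
  have h6 : 0 ≤ 2 * G * (1 - s) * x ^ 2 := by
    have : 0 ≤ 1 - s := by linarith
    positivity
  linarith

theorem quad_nn {P Q m x : ℝ} (hQ : 0 ≤ Q) (hP : 0 ≤ P) (h : m ^ 2 ≤ P * Q) :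
    0 ≤ P - 2 * m * x + Q * x ^ 2 := by
  rcases hQ.eq_or_lt with h0 | h0
  · rw [← h0, mul_zero] at h
    have hm : m = 0 := by
      have := sq_nonneg m
      exact pow_eq_zero_iff (n := 2) (by norm_num) |>.1 (le_antisymm h this)
    rw [hm, ← h0]
    linarith
  · exact sq_nn h0 h

theorem alg_Sp {a d o L G g k v x : ℝ} (hL : 0 < L) (ho : 0 ≤ o) (hoG : o < G)
    (hg : 0 ≤ g) (hs : g ^ 2 ≤ k) (hk0 : 0 < k) (ha : 0 ≤ a) (hd : 0 ≤ d)
    (hk : k ≤ 1)
    (h0 : k * o ^ 2 ≤ (a + k * d) * (2 * G - 2 * o))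
    (h1 : k * o ^ 2 ≤ (a + k * d) * (k * L + 2 * (1 - k) * G - 2 * o))
    (hx : 0 ≤ x) (hv1 : g * x ≤ v) (hv2 : v ≤ g * x + x ^ 2) :
    0 ≤ a + d * g ^ 2 - 2 * o * v + L * v ^ 2 + 2 * G * (1 - g ^ 2) * x ^ 2 := by
  have hG : 0 < G := lt_of_le_of_lt ho hoG
  set s : ℝ := g ^ 2 with hsd
  have hs0 : 0 ≤ s := sq_nonneg g
  have hP1 : 0 ≤ a + k * d := by positivity
  have hM0 : 0 < 2 * G - 2 * o := by linarith
  have hMk : 0 ≤ k * L + 2 * (1 - k) * G - 2 * o := by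
    rcases ho.eq_or_lt with e | e
    · rw [← e]
      have : 0 ≤ 1 - k := by linarith
      have := mul_nonneg (mul_nonneg (by norm_num : (0 : ℝ) ≤ 2) this) hG.le
      have := mul_pos hk0 hL
      linarith
    · by_contra hneg
      rw [not_le] at hneg
      have h2 : 0 < k * o ^ 2 := by positivity
      have h3 := mul_nonpos_of_nonneg_of_nonpos hP1 hneg.le
      linarith
  set m : ℝ := s / k with hm
  have hm0 : 0 ≤ m := by positivity
  have hm1 : m ≤ 1 := by rw [hm, div_le_one hk0]; exact hs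
  have hskm : s = k * m := by rw [hm]; field_simp
  have hM : L * s + 2 * G * (1 - s) - 2 * o =
      (1 - m) * (2 * G - 2 * o) + m * (k * L + 2 * (1 - k) * G - 2 * o) := by
    rw [hskm]; ring
  have hMn : 0 ≤ L * s + 2 * G * (1 - s) - 2 * o := by
    rw [hM]
    exact add_nonneg (mul_nonneg (by linarith) hM0.le) (mul_nonneg hm0 hMk)
  have hPs : a + d * s = (1 - m) * a + m * (a + k * d) := by rw [hskm]; ring
  have hPn : 0 ≤ a + d * s := by positivity
  have hPM : o ^ 2 * s ≤ (a + d * s) * (L * s + 2 * G * (1 - s) - 2 * o) := by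
    have g1 : 0 ≤ (1 - m) * a * (L * s + 2 * G * (1 - s) - 2 * o) :=
      mul_nonneg (mul_nonneg (by linarith) ha) hMn
    have g2 : m * (k * o ^ 2) ≤ m * ((1 - m) * ((a + k * d) * (2 * G - 2 * o)) +
        m * ((a + k * d) * (k * L + 2 * (1 - k) * G - 2 * o))) := by
      refine mul_le_mul_of_nonneg_left ?_ hm0
      have i1 := mul_le_mul_of_nonneg_left h0 (by linarith : 0 ≤ 1 - m)
      have i2 := mul_le_mul_of_nonneg_left h1 hm0
      linarith
    have e1 : (a + d * s) * (L * s + 2 * G * (1 - s) - 2 * o) =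
        (1 - m) * a * (L * s + 2 * G * (1 - s) - 2 * o) +
        m * ((1 - m) * ((a + k * d) * (2 * G - 2 * o)) +
        m * ((a + k * d) * (k * L + 2 * (1 - k) * G - 2 * o))) := by
      rw [hPs, hM]; ring
    rw [e1]
    have e2 : o ^ 2 * s = m * (k * o ^ 2) := by rw [hskm]; ring
    rw [e2]
    linarith
  have hfin := quad_nn (P := a + d * s) (Q := L * s + 2 * G * (1 - s) - 2 * o)
    (m := o * g) (x := x) hMn hPn (by rw [mul_pow, ← hsd]; exact hPM)
  have hgx : 0 ≤ g * x := mul_nonneg hg hx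
  have h14 : o * v ≤ o * (g * x + x ^ 2) := mul_le_mul_of_nonneg_left hv2 ho
  have h15 : (g * x) ^ 2 ≤ v ^ 2 := pow_le_pow_left₀ hgx hv1 2
  have h16 : L * (s * x ^ 2) ≤ L * v ^ 2 := by
    refine mul_le_mul_of_nonneg_left ?_ hL.le
    calc s * x ^ 2 = (g * x) ^ 2 := by rw [hsd]; ring
      _ ≤ v ^ 2 := h15
  linarith

end Pool.Agent.H93.PR2
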