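import Pool.Agent.H12.PR.D

/-!
# The pair inequality: the pure identities

`g1_pure`: the pair functional in the variables `x1 = r cos h`, `x2 = r cos (2 hJ - h)`,
`w = sin (h - hJ)`; `S0_eq`: `A0 L - cw^2 = S0 L`; positivity of `Nf`, `Gf`, `Lf`.
-/

namespace Pool.Agent.H93.PR2

open Pool.Agent.H12.PR

theorem Nf_pos {B : ℝ} (h0 : 0 < B) (h1 : B < Real.pi) : 0 < Nf B := by
  unfold Nf
  rcases lt_or_ge B (Real.pi / 2) with h | h
  · have hc : 0 < Real.cos B := Real.cos_pos_of_mem_Ioo ⟨by linarith, h⟩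
    have ht := Real.lt_tan h0 h
    rw [Real.tan_eq_sin_div_cos, lt_div_iff₀ hc] at ht
    linarith
  · have hs : 0 < Real.sin B := Real.sin_pos_of_pos_of_lt_pi h0 h1
    have hc : Real.cos B ≤ 0 :=
      Real.cos_nonpos_of_pi_div_two_le_of_le h (by linarith [Real.pi_pos])
    nlinarith

theorem sc_lt {B : ℝ} (h0 : 0 < B) : Real.sin B * Real.cos B < B := by
  have h := Real.sin_lt (x := 2 * B) (by linarith)
  rw [Real.sin_two_mul] at h
  linarith

theorem Gf_pos {K β : ℝ} (hK : 0 < K) (h0 : 0 < β) (h1 : β < Real.pi / 2) : 0 < Gf K β := by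
  have hs : 0 < Real.sin β := Real.sin_pos_of_pos_of_lt_pi h0 (by linarith)
  have hc : 0 < Real.cos β := Real.cos_pos_of_mem_Ioo ⟨by linarith, h1⟩
  unfold Gf
  positivity

theorem Lf_pos {K B β : ℝ} (hK : 0 < K) (hB0 : 0 < B) (hB1 : B < Real.pi) (h0 : 0 < β)
    (h1 : β < Real.pi / 2) : 0 < Lf K B β := by
  have h2 := Gf_pos hK h0 h1
  have h3 := Nf_pos hB0 hB1
  have h4 : 0 < Real.sin B := Real.sin_pos_of_pos_of_lt_pi hB0 hB1
  have h5 : 0 < B - Real.sin B * Real.cos B := sub_pos.2 (sc_lt hB0)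
  unfold Gf at h2
  unfold Lf
  positivity

/-- the identity in pure form: `x1 = r cos h`, `x2 = r cos (2 hJ - h)`, `w = sin (h - hJ)`,
`R = r^2` -/
theorem g1_pure {θ b K C S R x1 x2 w : ℝ}
    (hB : Real.sin (K * b) ≠ 0) (hN : Nf (K * b) ≠ 0)
    (hs : Real.sin (K * (2 * θ - b)) ≠ 0) (hc : Real.cos (K * (2 * θ - b)) ≠ 0)
    (hCS : C ^ 2 = S ^ 2 + 1) (hR : R = S ^ 2 + Real.cos θ ^ 2)
    (hx : x1 ^ 2 + x2 ^ 2 = 2 * (C * Real.cos θ) ^ 2 -
      2 * ((C * Real.cos θ) ^ 2 - (S * Real.sin θ) ^ 2) * w ^ 2) :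
    K * (K * b * Real.sin (K * b) * x1 ^ 2 - 2 * K * Real.sin (K * b) * x1 * (C * Real.sin b) +
      K ^ 2 * Real.cos (K * b) * (C * Real.sin b) ^ 2) / Nf (K * b) +
      K * (Real.cos (K * b) / Real.sin (K * b)) * (R - x1 ^ 2) +
      K * (R * (Real.cos (2 * (K * (2 * θ - b))) + 1) - 2 * x2 ^ 2) /
        Real.sin (2 * (K * (2 * θ - b))) +
      (K ^ 2 - 1) * θ * (C ^ 2 + S ^ 2) + (K ^ 2 + 1) * Real.sin θ * Real.cos θ =
    C ^ 2 * A0 θ b K + S ^ 2 * D0 θ b K -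
      2 * (C * cw θ b K) * (C * Real.cos θ - x1) +
      Lf K (K * b) (K * (2 * θ - b)) * (C * Real.cos θ - x1) ^ 2 +
      2 * Gf K (K * (2 * θ - b)) * ((C * Real.cos θ) ^ 2 - (S * Real.sin θ) ^ 2) * w ^ 2 := by
  have e1 : Real.cos (2 * (K * (2 * θ - b))) + 1 = 2 * Real.cos (K * (2 * θ - b)) ^ 2 := by
    rw [Real.cos_two_mul]; ring
  have hx2 : x2 ^ 2 = 2 * (C * Real.cos θ) ^ 2 -
      2 * ((C * Real.cos θ) ^ 2 - (S * Real.sin θ) ^ 2) * w ^ 2 - x1 ^ 2 := by linarith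
  rw [e1, hx2, hR]
  unfold A0 D0 cw Lf Gf
  rw [Real.sin_two_mul (K * (2 * θ - b))]
  have hth : Real.sin θ ^ 2 = 1 - Real.cos θ ^ 2 := Real.sin_sq θ
  have hBB : Real.sin (K * b) ^ 2 = 1 - Real.cos (K * b) ^ 2 := Real.sin_sq _
  have hbb : Real.sin (K * (2 * θ - b)) ^ 2 = 1 - Real.cos (K * (2 * θ - b)) ^ 2 :=
    Real.sin_sq _
  have hNd : Nf (K * b) = Real.sin (K * b) - K * b * Real.cos (K * b) := rfl
  generalize Nf (K * b) = N at *
  generalize Real.sin (K * b) = sB at *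
  generalize Real.cos (K * b) = cB at *
  generalize Real.sin (K * (2 * θ - b)) = sp at *
  generalize Real.cos (K * (2 * θ - b)) = cp at *
  generalize Real.sin θ = s at *
  generalize Real.cos θ = c at *
  generalize Real.sin b = sb at *
  have hP : K * (K * b - sB * cB) / (N * sB) = K * (K * b) * sB / N - K * (cB / sB) := by
    field_simp
    rw [hNd]
    linear_combination (-K ^ 2 * b) * hBB
  have hG : K / (sp * cp) = K * (sp / cp + cp / sp) := by
    field_simp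
    linear_combination (-K) * hbb
  have hX : ∀ X Y : ℝ, K * (Y * (2 * cp ^ 2) - 2 * X) / (2 * sp * cp) =
      K * Y * (cp / sp) - K * X * (sp / cp + cp / sp) := by
    intro X Y
    have : K * (Y * (2 * cp ^ 2) - 2 * X) / (2 * sp * cp) =
        K * Y * (cp / sp) - X * (K / (sp * cp)) := by
      field_simp
    rw [this, hG]
    ring
  rw [hX, hG, hP]
  linear_combination (-c ^ 2 * (K * (cB / sB) + K * (cp / sp)) - (K ^ 2 + 1) * s * c) * hCS -
    S ^ 2 * (K * (cB / sB) + K * (cp / sp)) * hth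

/-- the square completed -/
theorem S0_eq {θ b K : ℝ} (hB : Real.sin (K * b) ≠ 0) (hN : Nf (K * b) ≠ 0)
    (hs : Real.sin (K * (2 * θ - b)) ≠ 0) (hc : Real.cos (K * (2 * θ - b)) ≠ 0)
    (hd : Nf (K * b) * Real.sin (K * b) + Real.sin (K * (2 * θ - b)) *
      Real.cos (K * (2 * θ - b)) * (K * b - Real.sin (K * b) * Real.cos (K * b)) ≠ 0) :
    A0 θ b K * Lf K (K * b) (K * (2 * θ - b)) - cw θ b K ^ 2 =
      S0 θ b K * Lf K (K * b) (K * (2 * θ - b)) := by
  unfold A0 S0 cw Lf Rf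
  have hBB : Real.sin (K * b) ^ 2 = 1 - Real.cos (K * b) ^ 2 := Real.sin_sq _
  have hbb : Real.sin (K * (2 * θ - b)) ^ 2 = 1 - Real.cos (K * (2 * θ - b)) ^ 2 :=
    Real.sin_sq _
  have hNd : Nf (K * b) = Real.sin (K * b) - K * b * Real.cos (K * b) := rfl
  generalize Nf (K * b) = N at *
  generalize Real.sin (K * b) = sB at *
  generalize Real.cos (K * b) = cB at *
  generalize Real.sin (K * (2 * θ - b)) = sp at *
  generalize Real.cos (K * (2 * θ - b)) = cp at *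
  generalize Real.sin θ = s at *
  generalize Real.cos θ = c at *
  generalize Real.sin b = sb at *
  set den : ℝ := N * sB + sp * cp * (K * b - sB * cB) with hden
  have hL : K / (sp * cp) + K * (K * b - sB * cB) / (N * sB) = K * den / (sp * cp * (N * sB)) := by
    rw [hden]
    field_simp
  have hP : K * (K * b - sB * cB) / (N * sB) = K * (K * b) * sB / N - K * (cB / sB) := by
    field_simp
    rw [hNd]
    linear_combination (-K ^ 2 * b) * hBB
  have hG : K / (sp * cp) = K * (sp / cp + cp / sp) := by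
    field_simp
    linear_combination (-K) * hbb
  set L : ℝ := K / (sp * cp) + K * (K * b - sB * cB) / (N * sB) with hLd
  have hL2 : L = K * (sp / cp + cp / sp) + (K * (K * b) * sB / N - K * (cB / sB)) := by
    rw [hLd, hP, hG]
  have hstep : L * (K ^ 3 * cB * sb ^ 2 / N) - (K ^ 2 * sB * sb / N) ^ 2 =
      -(K ^ 3 * sb ^ 2 * ((sp * cp - sB * cB) / den) * L) := by
    rw [hL]
    field_simp
    rw [hden]
    linear_combination (K ^ 4 * sb ^ 2 * sp * cp) * hNd - K ^ 4 * sb ^ 2 * sp * cp * sB * hBB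
  have e1 : K ^ 2 * (θ + s * c) - (θ - s * c) - K * c ^ 2 * (sp / cp) +
      K / N * (K * b * sB * c ^ 2 - 2 * K * sB * c * sb + K ^ 2 * cB * sb ^ 2) =
      (K ^ 2 * (θ + s * c) - (θ - s * c) + K * c ^ 2 * (cB / sB - 2 * (sp / cp) - cp / sp)) +
        K ^ 3 * cB * sb ^ 2 / N + c ^ 2 * L - 2 * c * (K ^ 2 * sB * sb / N) := by
    rw [hL2]
    ring
  rw [e1]
  linear_combination hstep

end Pool.Agent.H93.PR2
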