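import Pool.Agent.H97.SU.Rd
import Pool.Agent.H93.PR2.Df
import Pool.Agent.H93.PR2.Al

/-!
# The pair inequality from the scalar facts

* `g1`: for `cos h >= 0`, with `V = C c - r cos h`, `w = sin (h - hJ)`:
  `Bg + psi - 2 lamJ = C^2 A0 + S^2 D0 - 2 C cw V + L V^2 + 2 G (C^2 c^2 - S^2 s^2) w^2`.
* `Pr_of_Sp`: `Sp` gives `Pr`: reflect `h` into `[0, π/2]`; `V <= 0` for `h <= hJ`; for
  `η = h - hJ ∈ [0, π/2]`: `V = C c (1 - cos η + σ sin η)`, `1 - cos η <= sin^2 η`.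
-/

namespace Pool.Agent.H93.PR2

open Pool.Agent.H36.SZ Pool.Agent.H15.PM Pool.Agent.H97.SU Pool.Agent.H12.PR
open scoped Real

theorem r_sin_hJ {t θ : ℝ} (ht : 0 < t) (h0 : 0 < θ) (h1 : θ < π / 2) :
    √(r2 t θ) * Real.sin (hJ t θ) = Real.sinh t * Real.sin θ := by
  have hc : 0 < Real.cos θ := Real.cos_pos_of_mem_Ioo ⟨by linarith, h1⟩
  have hC := Real.cosh_pos t
  have hj : Real.cos (hJ t θ) ≠ 0 := (Real.cos_arctan_pos _).ne'
  have e : Real.tan (hJ t θ) = Real.tanh t * Real.tan θ := by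
    unfold hJ
    exact Real.tan_arctan _
  rw [← Real.tan_mul_cos hj, e]
  have e2 : √(r2 t θ) * (Real.tanh t * Real.tan θ * Real.cos (hJ t θ)) =
      Real.tanh t * Real.tan θ * (√(r2 t θ) * Real.cos (hJ t θ)) := by ring
  rw [e2, r_cos_hJ ht h0 h1, Real.tanh_eq_sinh_div_cosh, Real.tan_eq_sin_div_cos]
  field_simp

theorem g1 {t θ b K h : ℝ} (ht : 0 < t) (h0 : 0 < θ) (h1 : θ < π / 2) (hb0 : 0 < b)
    (hb2 : b < 2 * θ) (hK : 0 < K) (hKb : K * b < π) (hKp : K * (2 * θ - b) < π / 2)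
    (hch : 0 ≤ Real.cos h) :
    Bg (Real.cosh t) (r2 t θ) K 0 b h + psi (r2 t θ) K 0 (2 * θ - b) (2 * hJ t θ - h) -
      2 * lamJ t θ K 0 =
    Real.cosh t ^ 2 * A0 θ b K + Real.sinh t ^ 2 * D0 θ b K -
      2 * (Real.cosh t * cw θ b K) * (Real.cosh t * Real.cos θ - √(r2 t θ) * Real.cos h) +
      Lf K (K * b) (K * (2 * θ - b)) *
        (Real.cosh t * Real.cos θ - √(r2 t θ) * Real.cos h) ^ 2 +
      2 * Gf K (K * (2 * θ - b)) *
        ((Real.cosh t * Real.cos θ) ^ 2 - (Real.sinh t * Real.sin θ) ^ 2) *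
        Real.sin (h - hJ t θ) ^ 2 := by
  have hpi := Real.pi_pos
  have hp0 : 0 < K * (2 * θ - b) := mul_pos hK (by linarith)
  have hB0 : 0 < K * b := mul_pos hK hb0
  have hr := r2_pos ht θ
  have hsq : √(r2 t θ) ^ 2 = r2 t θ := Real.sq_sqrt hr.le
  have rc := r_cos_hJ ht h0 h1
  have rs := r_sin_hJ ht h0 h1
  have hx : (√(r2 t θ) * Real.cos h) ^ 2 + (√(r2 t θ) * Real.cos (2 * hJ t θ - h)) ^ 2 =
      2 * (Real.cosh t * Real.cos θ) ^ 2 -
      2 * ((Real.cosh t * Real.cos θ) ^ 2 - (Real.sinh t * Real.sin θ) ^ 2) *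
        Real.sin (h - hJ t θ) ^ 2 := by
    have e1 : h = hJ t θ + (h - hJ t θ) := by ring
    have e2 : 2 * hJ t θ - h = hJ t θ - (h - hJ t θ) := by ring
    rw [e2, ← rc, ← rs]
    have e3 : Real.cos h = Real.cos (hJ t θ + (h - hJ t θ)) := by rw [← e1]
    rw [e3, Real.cos_add (hJ t θ), Real.cos_sub (hJ t θ) (h - hJ t θ)]
    have q := Real.sin_sq_add_cos_sq (h - hJ t θ)
    have q' : Real.cos (h - hJ t θ) ^ 2 = 1 - Real.sin (h - hJ t θ) ^ 2 := by linarith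
    linear_combination 2 * (√(r2 t θ) * Real.cos (hJ t θ)) ^ 2 * q'
  have hsB : 0 < Real.sin (K * b) := Real.sin_pos_of_pos_of_lt_pi hB0 hKb
  have hsp : 0 < Real.sin (K * (2 * θ - b)) := Real.sin_pos_of_pos_of_lt_pi hp0 (by linarith)
  have hcp : 0 < Real.cos (K * (2 * θ - b)) := Real.cos_pos_of_mem_Ioo ⟨by linarith, hKp⟩
  rw [← g1_pure (R := r2 t θ) hsB.ne' (Nf_pos hB0 hKb).ne' hsp.ne' hcp.ne' (Real.cosh_sq t) rfl hx]
  unfold Bg psi lamJ Ev Nf
  rw [abs_of_nonneg hch, Real.cosh_two_mul, mul_pow (√(r2 t θ)), mul_pow (√(r2 t θ)), hsq,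
    Real.cos_two_mul (2 * hJ t θ - h)]
  have q2 : Real.sin h ^ 2 = 1 - Real.cos h ^ 2 := by
    have := Real.sin_sq_add_cos_sq h
    linarith
  rw [q2]
  ring

/-- the form divided by `(C c)^2` -/
theorem g1_norm {C S c s A D w L G V x : ℝ} (hC : C ≠ 0) (hc : c ≠ 0) (hs : s ≠ 0) :
    C ^ 2 * A + S ^ 2 * D - 2 * (C * w) * V + L * V ^ 2 +
      2 * G * ((C * c) ^ 2 - (S * s) ^ 2) * x ^ 2 =
    (C * c) ^ 2 * (A / c ^ 2 + D / s ^ 2 * (S * s / (C * c)) ^ 2 -
      2 * (w / c) * (V / (C * c)) + L * (V / (C * c)) ^ 2 +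
      2 * G * (1 - (S * s / (C * c)) ^ 2) * x ^ 2) := by
  field_simp

/-- `σ = S s / (C c)` -/
theorem sig_eq {t θ : ℝ} : Real.sinh t * Real.sin θ / (Real.cosh t * Real.cos θ) =
    Real.tanh t * Real.tan θ := by
  rw [Real.tanh_eq_sinh_div_cosh, Real.tan_eq_sin_div_cos, div_mul_div_comm]

theorem co_of_Sp {t θ b K : ℝ} (ht : 0 < t) (h0 : 0 < θ) (h1 : θ < π / 2)
    (hT : Real.tanh t * Real.tan θ ≤ 4 / 5) (hb0 : 0 < b) (hb2 : b < 2 * θ) (hK : 0 < K)
    (hKb : K * b < π) (hKp : K * (2 * θ - b) < π / 2)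
    (hSp : Sp θ b K) {h : ℝ} (hch : 0 ≤ Real.cos h) :
    2 * lamJ t θ K 0 ≤ Bg (Real.cosh t) (r2 t θ) K 0 b h +
      psi (r2 t θ) K 0 (2 * θ - b) (2 * hJ t θ - h) := by
  have hpi := Real.pi_pos
  have hp0 : 0 < K * (2 * θ - b) := mul_pos hK (by linarith)
  have hB0 : 0 < K * b := mul_pos hK hb0
  have hc : 0 < Real.cos θ := Real.cos_pos_of_mem_Ioo ⟨by linarith, h1⟩
  have hs : 0 < Real.sin θ := Real.sin_pos_of_pos_of_lt_pi h0 (by linarith)
  have hC := Real.cosh_pos t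
  have hSt := Real.sinh_pos_iff.2 ht
  have hL := Lf_pos hK hB0 hKb hp0 hKp
  have hG := Gf_pos hK hp0 hKp
  have hr := r2_pos ht θ
  have hR : 0 < √(r2 t θ) := Real.sqrt_pos.2 hr
  have hg := g1 ht h0 h1 hb0 hb2 hK hKb hKp hch
  rw [g1_norm hC.ne' hc.ne' hs.ne'] at hg
  set σ : ℝ := Real.sinh t * Real.sin θ / (Real.cosh t * Real.cos θ) with hσd
  have hσ : 0 ≤ σ := by positivity
  have hσ0 : σ ≤ 4 / 5 := by rw [hσd, sig_eq]; exact hT
  have hσ1 : σ ^ 2 ≤ 16 / 25 := by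
    have := pow_le_pow_left₀ hσ hσ0 2
    norm_num at this ⊢
    exact this
  set a := hJ t θ with ha
  have rc : √(r2 t θ) * Real.cos a = Real.cosh t * Real.cos θ := r_cos_hJ ht h0 h1
  have rs : √(r2 t θ) * Real.sin a = Real.sinh t * Real.sin θ := r_sin_hJ ht h0 h1
  obtain ⟨j0, j1⟩ := hJ_mem ht h0 h1 (hT.trans (by norm_num))
  rw [← ha] at j0 j1
  have ca : 0 < Real.cos a := Real.cos_pos_of_mem_Ioo ⟨by linarith, by linarith⟩
  have sa : 0 ≤ Real.sin a := Real.sin_nonneg_of_nonneg_of_le_pi (by linarith) (by linarith)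
  -- the reflected angle
  set h' : ℝ := Real.arccos (Real.cos h) with hh'
  have ch' : Real.cos h' = Real.cos h :=
    Real.cos_arccos (by linarith) (Real.cos_le_one h)
  have h'1 : h' ≤ π / 2 := Real.arccos_le_pi_div_two.2 hch
  have h'0 : 0 ≤ h' := Real.arccos_nonneg _
  have sh' : 0 ≤ Real.sin h' := Real.sin_nonneg_of_nonneg_of_le_pi h'0 (by linarith)
  have q1 := Real.sin_sq_add_cos_sq h
  have q2 := Real.sin_sq_add_cos_sq h'
  have sle : Real.sin h ≤ Real.sin h' := by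
    refine le_of_sq_le_sq ?_ sh'
    rw [ch'] at q2
    linarith
  have hw : Real.sin (h' - a) ^ 2 ≤ Real.sin (h - a) ^ 2 := by
    rw [Real.sin_sub, Real.sin_sub, ch']
    have e1 : (Real.sin h * Real.cos a - Real.cos h * Real.sin a) ^ 2 -
        (Real.sin h' * Real.cos a - Real.cos h * Real.sin a) ^ 2 =
        2 * (Real.sin h' - Real.sin h) * (Real.cos h * (Real.cos a * Real.sin a)) := by
      rw [ch'] at q2
      linear_combination Real.cos a ^ 2 * (q1 - q2)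
    have e2 : 0 ≤ 2 * (Real.sin h' - Real.sin h) * (Real.cos h * (Real.cos a * Real.sin a)) :=
      mul_nonneg (by linarith) (mul_nonneg hch (mul_nonneg ca.le sa))
    linarith
  set V : ℝ := (Real.cosh t * Real.cos θ - √(r2 t θ) * Real.cos h) /
      (Real.cosh t * Real.cos θ) with hV
  have hVe : V = 1 - Real.cos (h' - a) + σ * Real.sin (h' - a) := by
    have e1 : Real.cos h = Real.cos (a + (h' - a)) := by rw [← ch']; congr 1; ring
    rw [hV, e1, Real.cos_add, hσd]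
    have e2 : √(r2 t θ) * (Real.cos a * Real.cos (h' - a) - Real.sin a * Real.sin (h' - a)) =
        Real.cosh t * Real.cos θ * Real.cos (h' - a) -
          Real.sinh t * Real.sin θ * Real.sin (h' - a) := by
      rw [← rc, ← rs]; ring
    rw [e2]
    field_simp
    ring
  have hfin : 0 ≤ A0 θ b K / Real.cos θ ^ 2 + D0 θ b K / Real.sin θ ^ 2 * σ ^ 2 -
      2 * (cw θ b K / Real.cos θ) * V + Lf K (K * b) (K * (2 * θ - b)) * V ^ 2 +
      2 * Gf K (K * (2 * θ - b)) * (1 - σ ^ 2) * Real.sin (h' - a) ^ 2 := by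
    have hA : 0 ≤ A0 θ b K / Real.cos θ ^ 2 := div_nonneg hSp.a (by positivity)
    have hD : 0 ≤ D0 θ b K / Real.sin θ ^ 2 := div_nonneg hSp.d (by positivity)
    have ho : 0 ≤ cw θ b K / Real.cos θ := div_nonneg hSp.w0 hc.le
    have h1s : 0 ≤ 1 - σ ^ 2 := by linarith
    rcases le_total h' a with hle | hle
    · -- `V <= 0`
      have hV0 : V ≤ 0 := by
        rw [hV]
        refine div_nonpos_of_nonpos_of_nonneg ?_ (by positivity)
        have : Real.cos a ≤ Real.cos h := by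
          rw [← ch']
          exact Real.cos_le_cos_of_nonneg_of_le_pi h'0 (by linarith) hle
        have := mul_le_mul_of_nonneg_left this hR.le
        linarith
      have i1 : 0 ≤ D0 θ b K / Real.sin θ ^ 2 * σ ^ 2 := mul_nonneg hD (sq_nonneg _)
      have i2 : 0 ≤ Lf K (K * b) (K * (2 * θ - b)) * V ^ 2 := mul_nonneg hL.le (sq_nonneg _)
      have i3 : 0 ≤ 2 * Gf K (K * (2 * θ - b)) * (1 - σ ^ 2) * Real.sin (h' - a) ^ 2 :=
        mul_nonneg (mul_nonneg (by linarith) h1s) (sq_nonneg _)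
      have i4 : 2 * (cw θ b K / Real.cos θ) * V ≤ 0 :=
        mul_nonpos_of_nonneg_of_nonpos (by linarith) hV0
      linarith
    · have c0 : 0 ≤ Real.cos (h' - a) :=
        Real.cos_nonneg_of_neg_pi_div_two_le_of_le (by linarith) (by linarith)
      have c1 := Real.cos_le_one (h' - a)
      have s0 : 0 ≤ Real.sin (h' - a) :=
        Real.sin_nonneg_of_nonneg_of_le_pi (by linarith) (by linarith)
      have q := Real.sin_sq_add_cos_sq (h' - a)
      have hcc : 1 - Real.cos (h' - a) ≤ Real.sin (h' - a) ^ 2 := by nlinarith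
      have eP : A0 θ b K / Real.cos θ ^ 2 + 16 / 25 * (D0 θ b K / Real.sin θ ^ 2) =
          A1 θ b K / Real.cos θ ^ 2 := by
        unfold A1
        field_simp
      refine alg_Sp (k := 16 / 25) hL ho ?_ hσ hσ1 (by norm_num) hA hD (by norm_num) ?_ ?_ s0
        (by rw [hVe]; linarith) (by rw [hVe]; linarith)
      · rw [div_lt_iff₀ hc]
        linarith [hSp.w1]
      · have hh := div_le_div_of_nonneg_right hSp.m0 (sq_nonneg (Real.cos θ))
        have e2 : 16 / 25 * (cw θ b K / Real.cos θ) ^ 2 =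
            16 / 25 * cw θ b K ^ 2 / Real.cos θ ^ 2 := by ring
        have e3 : A1 θ b K / Real.cos θ ^ 2 *
            (2 * Gf K (K * (2 * θ - b)) - 2 * (cw θ b K / Real.cos θ)) =
            A1 θ b K * (2 * Gf K (K * (2 * θ - b)) - 2 * cw θ b K / Real.cos θ) /
              Real.cos θ ^ 2 := by ring
        rw [eP, e2, e3]
        exact hh
      · have hh := div_le_div_of_nonneg_right hSp.m1 (sq_nonneg (Real.cos θ))
        have e2 : 16 / 25 * (cw θ b K / Real.cos θ) ^ 2 =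
            16 / 25 * cw θ b K ^ 2 / Real.cos θ ^ 2 := by ring
        have e3 : A1 θ b K / Real.cos θ ^ 2 *
            (16 / 25 * Lf K (K * b) (K * (2 * θ - b)) +
              2 * (1 - 16 / 25) * Gf K (K * (2 * θ - b)) - 2 * (cw θ b K / Real.cos θ)) =
            A1 θ b K * (16 / 25 * Lf K (K * b) (K * (2 * θ - b)) +
              18 / 25 * Gf K (K * (2 * θ - b)) - 2 * cw θ b K / Real.cos θ) /
              Real.cos θ ^ 2 := by ring
        rw [eP, e2, e3]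
        exact hh
  have hcmp : 2 * Gf K (K * (2 * θ - b)) * (1 - σ ^ 2) * Real.sin (h' - a) ^ 2 ≤
      2 * Gf K (K * (2 * θ - b)) * (1 - σ ^ 2) * Real.sin (h - a) ^ 2 :=
    mul_le_mul_of_nonneg_left hw (mul_nonneg (by linarith) (by linarith))
  have hCc : 0 ≤ (Real.cosh t * Real.cos θ) ^ 2 := sq_nonneg _
  have h9 := mul_nonneg hCc (le_trans hfin (add_le_add_right hcmp _))
  linarith

/-- for `π/4 <= θ`, `1 <= K`, `K b < π/2` -/
theorem sin_B_le {θ b K : ℝ} (hq : π / 4 ≤ θ) (hb : θ < b) (hb2 : b < 2 * θ) (hK : 1 ≤ K)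
    (hB : K * b < π / 2) : Real.sin (2 * (K * b)) ≤ Real.sin (2 * (K * (2 * θ - b))) := by
  have hpi := Real.pi_pos
  have e := Real.sin_sub_sin (2 * (K * (2 * θ - b))) (2 * (K * b))
  have e1 : (2 * (K * (2 * θ - b)) - 2 * (K * b)) / 2 = -(2 * (K * (b - θ))) := by ring
  have e2 : (2 * (K * (2 * θ - b)) + 2 * (K * b)) / 2 = 2 * (K * θ) := by ring
  rw [e1, e2, Real.sin_neg] at e
  have i0 : θ ≤ K * θ := by nlinarith
  have i1 : K * θ < K * b := mul_lt_mul_of_pos_left hb (by linarith)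
  have i2 : 0 < K * (b - θ) := mul_pos (by linarith) (by linarith)
  have i3 : 0 ≤ Real.sin (2 * (K * (b - θ))) :=
    Real.sin_nonneg_of_nonneg_of_le_pi (by linarith) (by nlinarith)
  have i4 : Real.cos (2 * (K * θ)) ≤ 0 :=
    Real.cos_nonpos_of_pi_div_two_le_of_le (by linarith) (by linarith)
  have := mul_nonneg i3 (neg_nonneg.2 i4)
  linarith

theorem Pr_of_Sp {t θ b K : ℝ} (ht : 0 < t) (hq : π / 4 ≤ θ) (h1 : θ < π / 2)
    (hT : Real.tanh t * Real.tan θ ≤ 4 / 5) (hb : θ < b) (hb2 : b < 2 * θ) (hK : 1 ≤ K)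
    (hKb : K * b < π) (hKp : K * (2 * θ - b) < π / 2)
    (hSp : Sp θ b K) (h : ℝ) : Pr t θ b h := by
  have hpi := Real.pi_pos
  have h0 : 0 < θ := by linarith
  exact pr_of_co ht h0 h1 (hT.trans (by norm_num)) hb hb2 hK hKb hKp
    (fun hB => sin_B_le hq hb hb2 hK hB)
    (fun h hc => co_of_Sp ht h0 h1 hT (h0.trans hb) hb2 (by linarith) hKb hKp hSp hc) h

end Pool.Agent.H93.PR2
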